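import Pool.Agent.Work.MP_bec1e1_lv_helper15.LUInterface
import Pool.Agent.Work.MP_bec1e1_TOOL_h13.Cuts
import Pool.Agent.Work.MP_bec1e1_lv_h99.EXC

/-!
# LU_UDOM: domination of the law of the contents
-/

set_option autoImplicit false
set_option maxHeartbeats 400000

open Filter Topology
open scoped BigOperators

namespace Pool.Agent.LCSV

open Pool.Agent.LCSE

noncomputable section

section
variable {k : ℕ}

/-- sum over all cuts of `y` into `N` windows of the mean over the contents given the windows -/
def CE (k l : ℕ) (K : List (Fin k) → List (Fin k) → ℝ) :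
    ℕ → (List (List (Fin k)) → ℝ) → List (Fin k) → ℝ
  | 0, F, y => if y = [] then F [] else 0
  | N + 1, F, y => ∑ g ∈ Finset.range (y.length + 1),
      Ex k l fun c => K (y.take g) c * CE k l K N (fun cs => F (c :: cs)) (y.drop g)

lemma CE_nonneg {l : ℕ} {K : List (Fin k) → List (Fin k) → ℝ}
    (hK : ∀ v c, c.length = l → 0 ≤ K v c) (N : ℕ) (F : List (List (Fin k)) → ℝ)
    (hF : ∀ cs, 0 ≤ F cs) (y : List (Fin k)) : 0 ≤ CE k l K N F y := by
  induction N generalizing F y with
  | zero => unfold CE; split_ifs; exacts [hF _, le_rfl]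
  | succ N ih =>
    unfold CE
    exact Finset.sum_nonneg fun g _ => Ex_nonneg fun c hc =>
      mul_nonneg (hK _ _ hc) (ih _ (fun cs => hF _) _)

lemma Exk_le_CE {l : ℕ} {K : List (Fin k) → List (Fin k) → ℝ}
    (hK : ∀ v c, c.length = l → 0 ≤ K v c) (vs : List (List (Fin k)))
    (F : List (List (Fin k)) → ℝ) (hF : ∀ cs, 0 ≤ F cs) :
    Exk l K vs F ≤ CE k l K vs.length F vs.flatten := by
  induction vs generalizing F with
  | nil => simp [Exk, CE]
  | cons v vs ih =>
    rw [Exk, List.length_cons, List.flatten_cons, CE]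
    refine le_trans ?_ (Finset.single_le_sum (f := fun g => Ex k l fun c =>
      K ((v ++ vs.flatten).take g) c * CE k l K vs.length (fun cs => F (c :: cs))
        ((v ++ vs.flatten).drop g)) (fun g _ => Ex_nonneg fun c hc =>
          mul_nonneg (hK _ _ hc) (CE_nonneg hK _ _ (fun cs => hF _) _))
        (a := v.length) (by simp))
    simp only [List.take_left, List.drop_left]
    exact Ex_mono fun c hc => mul_le_mul_of_nonneg_left (ih _ fun cs => hF _) (hK _ _ hc)

lemma Ex_CE_le {l : ℕ} {K : List (Fin k) → List (Fin k) → ℝ} {g : List (Fin k) → ℝ}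
    (hk : 0 < k)
    (hK : ∀ v c, c.length = l → 0 ≤ K v c)
    (hg : ∀ (m : ℕ) (c : List (Fin k)), c.length = l → (Ex k m fun v => K v c) = g c)
    (N b : ℕ) (F : List (List (Fin k)) → ℝ) (hF : ∀ cs, 0 ≤ F cs) :
    Ex k b (CE k l K N F) ≤ ((b + N).choose N : ℝ) * Exc k l g N F := by
  have hg0 : ∀ c : List (Fin k), c.length = l → 0 ≤ g c := by
    intro c hc
    rw [← hg 0 c hc]
    exact Ex_nonneg fun v _ => hK _ _ hc
  induction N generalizing b F with
  | zero =>
    simp only [Nat.add_zero, Nat.choose_zero_right, Nat.cast_one, one_mul]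
    refine Ex_le_const hk fun y _ => ?_
    unfold CE Exc
    split_ifs
    exacts [le_rfl, hF _]
  | succ N ih =>
    have h1 : Ex k b (CE k l K (N + 1) F) = ∑ a ∈ Finset.range (b + 1),
        Ex k l fun c => g c * Ex k (b - a) (CE k l K N fun cs => F (c :: cs)) := by
      have h2 : Ex k b (CE k l K (N + 1) F) = Ex k b (fun y => ∑ a ∈ Finset.range (b + 1),
          Ex k l fun c => K (y.take a) c * CE k l K N (fun cs => F (c :: cs)) (y.drop a)) := by
        refine Ex_congr fun y hy => ?_
        rw [CE, hy]
      rw [h2, Ex_finset_sum]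
      refine Finset.sum_congr rfl fun a ha => ?_
      obtain ⟨d, rfl⟩ := Nat.exists_eq_add_of_le (Nat.lt_succ_iff.mp (Finset.mem_range.mp ha))
      rw [Ex_append, Nat.add_sub_cancel_left]
      have h3 : (Ex k a fun u => Ex k d fun v => Ex k l fun c =>
          K ((u ++ v).take a) c * CE k l K N (fun cs => F (c :: cs)) ((u ++ v).drop a)) =
          Ex k a fun u => Ex k d fun v => Ex k l fun c =>
          K u c * CE k l K N (fun cs => F (c :: cs)) v := by
        refine Ex_congr fun u hu => Ex_congr fun v _ => ?_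
        rw [List.take_left' hu, List.drop_left' hu]
      rw [h3]
      have h4 : (Ex k a fun u => Ex k d fun v => Ex k l fun c =>
          K u c * CE k l K N (fun cs => F (c :: cs)) v) =
          Ex k a fun u => Ex k l fun c => K u c * Ex k d fun v =>
            CE k l K N (fun cs => F (c :: cs)) v := by
        refine Ex_congr fun u _ => ?_
        rw [Ex_comm]
        refine Ex_congr fun c _ => ?_
        rw [Ex_const_mul]
      rw [h4, Ex_comm]
      refine Ex_congr fun c hc => ?_
      rw [Ex_mul_const, hg a c hc]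
    rw [h1]
    calc ∑ a ∈ Finset.range (b + 1),
          Ex k l (fun c => g c * Ex k (b - a) (CE k l K N fun cs => F (c :: cs)))
        ≤ ∑ a ∈ Finset.range (b + 1), ((b - a + N).choose N : ℝ) * Exc k l g (N + 1) F := by
          refine Finset.sum_le_sum fun a _ => ?_
          rw [Exc, ← Ex_const_mul]
          refine Ex_mono fun c hc => ?_
          calc g c * Ex k (b - a) (CE k l K N fun cs => F (c :: cs))
              ≤ g c * (((b - a + N).choose N : ℝ) * Exc k l g N fun cs => F (c :: cs)) :=
                mul_le_mul_of_nonneg_left (ih _ _ fun cs => hF _) (hg0 c hc)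
            _ = _ := by ring
      _ = ((∑ a ∈ Finset.range (b + 1), (b - a + N).choose N : ℕ) : ℝ) *
            Exc k l g (N + 1) F := by
          push_cast
          rw [Finset.sum_mul]
      _ = _ := by rw [Pool.Agent.LCST.sum_choose_aux, show b + N + 1 = b + (N + 1) by ring]

end

theorem stmt_UDOM : Stmt_UDOM := by
  intro k l T b K g xs f win hk hT hb hK hg hf hwin hxs
  have hg0 : ∀ c : List (Fin k), c.length = l → 0 ≤ g c := by
    intro c hc
    rw [← hg 0 c hc]
    exact Ex_nonneg fun v _ => hK _ _ hc
  have h0 : 0 ≤ Exc k l g T f := Exc_nonneg (fun w hw => hg0 w hw) fun _ _ => hf _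
  calc (Ex k b fun y => Exk l K (win y) f)
      ≤ Ex k b (CE k l K T f) := by
        refine Ex_mono fun y hy => ?_
        obtain ⟨h1, h2, -⟩ := hwin y hy
        have h3 := Exk_le_CE hK (win y) f hf
        rwa [h1, hxs, h2] at h3
    _ ≤ ((b + T).choose T : ℝ) * Exc k l g T f := Ex_CE_le hk hK hg T b f hf
    _ ≤ _ := by
        refine mul_le_mul_of_nonneg_right ?_ h0
        refine (Pool.Agent.LCST.choose_le_exp b T hT).trans (Real.exp_le_exp.mpr ?_)
        have hT' : (0 : ℝ) < T := by exact_mod_cast hT
        have h1 : ((b : ℝ) + T) / T ≤ k * l + 1 := by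
          rw [div_le_iff₀ hT']
          have : (b : ℝ) ≤ k * (T * l) := by exact_mod_cast hb
          nlinarith
        have h2 : Real.log (((b : ℝ) + T) / T) ≤ Real.log (k * l + 1) :=
          Real.log_le_log (by positivity) h1
        nlinarith
end

end Pool.Agent.LCSV
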