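import Pool.Agent.Work.MP_bec1e1_lv_helper15.LUInterface
import Pool.Agent.Work.MP_bec1e1_lv_h99.EXC
import Pool.Agent.Work.MP_bec1e1_lv_helper42.PW

/-!
# LU_ABSFIN: from one good length to all lengths
-/

set_option autoImplicit false
set_option maxHeartbeats 400000

open Filter Topology
open scoped BigOperators

namespace Pool.Agent.LCSV

open Pool.Agent.LCSE

noncomputable section

namespace ABSF

lemma gam_nonneg (k : ℕ) : 0 ≤ gam k := by
  unfold gam Phi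
  refine Real.iSup_nonneg fun n => ?_
  refine div_nonneg ?_ (by positivity)
  exact Ex_nonneg fun x _ => Ex_nonneg fun y _ => Nat.cast_nonneg _

section
variable {k n₁ T R : ℕ} {θ Γ D a n₀ b₀ : ℝ} {C Ω : Type} [Fintype C] [Fintype Ω] [DecidableEq C]

/-- the luck of a unit is at most its length -/
lemma luck_le (hk : 0 < k) (hθ : 0 ≤ θ) (hθ1 : θ ≤ 1)
    (U : UnitData k n₁ T R θ Γ D a n₀ b₀ C Ω) : gam k * n₁ + Γ ≤ n₁ := by
  refine U.luck.trans ?_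
  have hb : ∀ (i : Fin T) (x : Bool), 0 ≤ (fun _ : Fin T => bw θ) i x := by
    intro i x
    cases x
    · simp only [bw]; simpa using hθ1
    · simp only [bw]; simpa using hθ
  have hb1 : ∀ i : Fin T, ∑ x, (fun _ : Fin T => bw θ) i x = 1 := by
    intro i
    simp [bw]
  calc _ ≤ ∑ ω, U.P ω * (n₁ : ℝ) := by
        refine Finset.sum_le_sum fun ω _ => mul_le_mul_of_nonneg_left ?_ (U.P_nonneg ω)
        refine PWA.le_const hb hb1 fun bs => Ex_le_const hk fun V _ => ?_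
        refine PWA.le_const (fun j x => U.κ_nonneg ω V j x) (U.κ_sum ω V) fun c => ?_
        have h := L_le_left (U.word ω bs c) V
        rw [U.word_len] at h
        exact_mod_cast h
    _ = n₁ := by rw [← Finset.sum_mul, U.P_sum, one_mul]

end

/-- from one length to a slightly larger length -/
lemma extend {k : ℕ} (hk : 0 < k) (m rem : ℕ) (g g' t t' q : ℝ)
    (hg : g' ≤ g) (ht : t' * (k : ℝ) ^ rem ≤ t)
    (H : ∀ B : List (Fin k) → Prop, 1 / 2 ≤ (Ex k m fun u => ind (B u)) →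
      (Ex k m fun V => ind ((Ex k m fun u => ind (B u ∧ g ≤ (L u V : ℝ))) < t)) ≤ q)
    (B : List (Fin k) → Prop) (hB : 1 / 2 ≤ (Ex k (m + rem) fun u => ind (B u))) :
    (Ex k (m + rem) fun V => ind ((Ex k (m + rem) fun u => ind (B u ∧ g' ≤ (L u V : ℝ))) < t')) ≤
      q := by
  have hk' : (0 : ℝ) < (k : ℝ) := by exact_mod_cast hk
  rw [Ex_append, Ex_comm] at hB
  obtain ⟨r₀, hr₀, hr₁⟩ := exists_ge_Ex hk rem (fun v => Ex k m fun u => ind (B (u ++ v)))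
  have hB' : 1 / 2 ≤ Ex k m fun u => ind (B (u ++ r₀)) := hB.trans hr₁
  refine le_trans ?_ (H (fun u => B (u ++ r₀)) hB')
  rw [Ex_append]
  refine Ex_mono fun V hV => ?_
  refine Ex_le_const hk fun V' hV' => ?_
  refine ind_mono fun h => ?_
  by_contra hcon
  push Not at hcon
  refine absurd h (not_lt.mpr ?_)
  have h1 : ((k : ℝ)⁻¹) ^ rem * (Ex k m fun u => ind (B (u ++ r₀) ∧ g ≤ (L u V : ℝ))) ≤
      Ex k (m + rem) fun u => ind (B u ∧ g' ≤ (L u (V ++ V') : ℝ)) := by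
    rw [Ex_append, ← Ex_const_mul]
    refine Ex_mono fun u _ => ?_
    have h2 := Ex_ind_eq r₀ (fun v => ind (B (u ++ v) ∧ g' ≤ (L (u ++ v) (V ++ V') : ℝ)))
    rw [hr₀] at h2
    have h3 : (Ex k rem fun v => ind (v = r₀) *
        ind (B (u ++ v) ∧ g' ≤ (L (u ++ v) (V ++ V') : ℝ))) ≤
        Ex k rem fun v => ind (B (u ++ v) ∧ g' ≤ (L (u ++ v) (V ++ V') : ℝ)) := by
      refine Ex_mono fun v _ => ?_
      exact mul_le_of_le_one_left (ind_nonneg _) (ind_le_one _)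
    refine le_trans ?_ h3
    rw [h2]
    refine mul_le_mul_of_nonneg_left (ind_mono fun h4 => ⟨h4.1, ?_⟩) (by positivity)
    refine hg.trans (h4.2.trans ?_)
    have h5 : L u V ≤ L (u ++ r₀) (V ++ V') :=
      L_mono (List.sublist_append_left _ _) (List.sublist_append_left _ _)
    exact_mod_cast h5
  refine le_trans ?_ h1
  calc t' = ((k : ℝ)⁻¹) ^ rem * (t' * (k : ℝ) ^ rem) := by
        rw [inv_pow]
        field_simp
    _ ≤ ((k : ℝ)⁻¹) ^ rem * t := mul_le_mul_of_nonneg_left ht (by positivity)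
    _ ≤ _ := mul_le_mul_of_nonneg_left hcon (by positivity)

end ABSF

theorem stmt_ABSFIN : Stmt_ABSFIN := by
  intro hT hO k hk lam δ₁ n₀ b₀ hlam hδ₁ hn₀ hb₀
  obtain ⟨A₀, hA₀, HO⟩ := hO lam δ₁ n₀ b₀ hlam hδ₁ hn₀ hb₀
  refine ⟨A₀, hA₀, ?_⟩
  intro n₁ T R N a C Ω _ _ _ hN hNT hR ha haR U
  have hk0 : 0 < k := by omega
  have hN' : (2 : ℝ) ≤ N := by exact_mod_cast hN
  have hN0 : (0 : ℝ) < N := by linarith
  have hT1 : 1 ≤ T := by omega
  have hT' : (1 : ℝ) ≤ T := by exact_mod_cast hT1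
  have hR' : (1 : ℝ) ≤ R := by exact_mod_cast hR
  have hθ0 : (0 : ℝ) < 1 / (N : ℝ) := by positivity
  have hθ1 : 1 / (N : ℝ) < 1 := by
    rw [div_lt_one hN0]; linarith
  set Γ : ℝ := 1 / (N : ℝ) * T * R * δ₁ with hΓ
  have hΓ0 : 0 < Γ := by positivity
  have hγ0 := ABSF.gam_nonneg k
  have hluck := ABSF.luck_le hk0 hθ0.le hθ1.le U
  have hn1 : (0 : ℝ) < n₁ := by
    have h0 : (0 : ℝ) ≤ n₁ := Nat.cast_nonneg _
    nlinarith [mul_nonneg hγ0 h0]
  have hn1' : 0 < n₁ := by exact_mod_cast hn1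
  have hΓn : Γ ≤ n₁ := by nlinarith [mul_nonneg hγ0 hn1.le]
  have hTE := hT k n₁ T R (1 / (N : ℝ)) Γ (lam / 1000 * Γ) a n₀ b₀ C Ω hk0 hΓ0 hθ0 hθ1 ha U
  refine ⟨3 * Γ / (16 * n₁), Γ ^ 2 / (200 * (n₁ : ℝ) ^ 2), by positivity, ?_, by positivity, ?_⟩
  · rw [div_lt_one (by positivity)]; linarith
  have hdiv : Tendsto (fun n : ℕ => n / n₁) atTop atTop := Nat.tendsto_div_const_atTop hn1'.ne'
  have e1 : ∀ᶠ K : ℕ in atTop, A₀ ≤ K := tendsto_natCast_atTop_atTop.eventually_ge_atTop A₀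
  have e2 : ∀ᶠ K : ℕ in atTop, (A₀ * √(n₁ : ℝ) / Γ) ^ 2 ≤ K :=
    tendsto_natCast_atTop_atTop.eventually_ge_atTop _
  have e3 : ∀ᶠ K : ℕ in atTop, (3 * Γ + 16 * gam k * n₁) / Γ ≤ K :=
    tendsto_natCast_atTop_atTop.eventually_ge_atTop _
  have e4 : ∀ᶠ K : ℕ in atTop, 16 * (n₁ * Real.log k) / (lam * Γ) ≤ K :=
    tendsto_natCast_atTop_atTop.eventually_ge_atTop _
  have e5 : ∀ᶠ K : ℕ in atTop, 1 ≤ K := eventually_ge_atTop 1
  filter_upwards [hdiv.eventually (hTE.and (e1.and (e2.and (e3.and (e4.and e5)))))] with n hn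
  obtain ⟨hKU, hK1, hK2, hK3, hK4, hK5⟩ := hn
  set K : ℕ := n / n₁ with hKdef
  have hK0 : (0 : ℝ) < K := by exact_mod_cast (show 0 < K by omega)
  have hK5' : (1 : ℝ) ≤ K := by exact_mod_cast hK5
  have hnK : n = K * n₁ + n % n₁ := by
    have := Nat.div_add_mod n n₁
    rw [hKdef, mul_comm]; exact this.symm
  have hrem : n % n₁ < n₁ := Nat.mod_lt _ hn1'
  set rem : ℕ := n % n₁ with hremdef
  have hnR : (n : ℝ) = K * n₁ + rem := by
    have h : ((n : ℕ) : ℝ) = ((K * n₁ + rem : ℕ) : ℝ) := by rw [← hnK]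
    rw [h]; push_cast; ring
  have hremR : (rem : ℝ) ≤ n₁ := by exact_mod_cast hrem.le
  have hrem0 : (0 : ℝ) ≤ rem := Nat.cast_nonneg _
  -- the unit with `K n₁` letters
  have c1 : (K : ℝ) * Γ = 1 / (N : ℝ) * ((K * T : ℕ) : ℝ) * R * δ₁ := by
    rw [hΓ]; push_cast; ring
  have c2 : (K : ℝ) * (lam / 1000 * Γ) =
      lam / 1000 * (1 / (N : ℝ) * ((K * T : ℕ) : ℝ) * R * δ₁) := by
    rw [hΓ]; push_cast; ring
  rw [c1, c2] at hKU
  obtain ⟨U', hU'⟩ := hKU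
  have hcond1 : A₀ * (N : ℝ) ≤ ((K * T : ℕ) : ℝ) := by
    have hNT' : (N : ℝ) ≤ T := by exact_mod_cast hNT
    push_cast
    calc A₀ * (N : ℝ) ≤ K * N := mul_le_mul_of_nonneg_right hK1 hN0.le
      _ ≤ K * T := mul_le_mul_of_nonneg_left hNT' hK0.le
  have hcond2 : A₀ * √((K * n₁ : ℕ) : ℝ) ≤ 1 / (N : ℝ) * ((K * T : ℕ) : ℝ) * R * δ₁ := by
    rw [← c1]
    push_cast
    rw [Real.sqrt_mul hK0.le]
    have h1 : A₀ * √(n₁ : ℝ) / Γ ≤ √(K : ℝ) := by
      apply Real.le_sqrt_of_sq_le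
      exact hK2
    rw [div_le_iff₀ hΓ0] at h1
    calc A₀ * (√(K : ℝ) * √(n₁ : ℝ)) = √(K : ℝ) * (A₀ * √(n₁ : ℝ)) := by ring
      _ ≤ √(K : ℝ) * (√(K : ℝ) * Γ) := mul_le_mul_of_nonneg_left h1 (Real.sqrt_nonneg _)
      _ = K * Γ := by rw [← mul_assoc, Real.mul_self_sqrt hK0.le]
  have hmain := HO k (K * n₁) (K * T) R N a C (Fin K → Ω) hk hN hcond1 hR ha haR _ rfl hcond2 U' hU'
  rw [← c1] at hmain
  intro B hB
  have hfin := ABSF.extend hk0 (K * n₁) rem (gam k * ((K * n₁ : ℕ) : ℝ) + K * Γ / 4)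
    ((gam k + 3 * Γ / (16 * n₁)) * n) (Real.exp (-(lam * (K * Γ) / 8)))
    (Real.exp (-(lam * (3 * Γ / (16 * n₁)) * n)))
    (Real.exp (-((K * Γ) ^ 2 / (100 * ((K * n₁ : ℕ) : ℝ))))) ?_ ?_ hmain B (by rw [← hnK]; exact hB)
  · rw [← hnK] at hfin
    refine hfin.trans (Real.exp_le_exp.mpr (neg_le_neg ?_))
    push_cast
    rw [hnR]
    have h1 : (K : ℝ) * n₁ + rem ≤ 2 * K * n₁ := by nlinarith
    calc Γ ^ 2 / (200 * (n₁ : ℝ) ^ 2) * ((K : ℝ) * n₁ + rem)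
        ≤ Γ ^ 2 / (200 * (n₁ : ℝ) ^ 2) * (2 * K * n₁) :=
          mul_le_mul_of_nonneg_left h1 (by positivity)
      _ = (K * Γ) ^ 2 / (100 * (K * n₁)) := by field_simp; ring
  · -- values
    have h1 : 3 * Γ + 16 * gam k * n₁ ≤ K * Γ := by rwa [div_le_iff₀ hΓ0] at hK3
    have h2 : 3 * Γ / (16 * n₁) * n ≤ 3 * Γ * (K + 1) / 16 := by
      rw [hnR]
      calc 3 * Γ / (16 * n₁) * ((K : ℝ) * n₁ + rem)
          ≤ 3 * Γ / (16 * n₁) * ((K : ℝ) * n₁ + n₁) :=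
            mul_le_mul_of_nonneg_left (by linarith) (by positivity)
        _ = 3 * Γ * (K + 1) / 16 := by field_simp
    have h3 : gam k * n ≤ gam k * (K * n₁) + gam k * n₁ := by
      rw [hnR]
      nlinarith [mul_le_mul_of_nonneg_left hremR hγ0]
    push_cast
    nlinarith
  · -- probabilities
    have hkR : (0 : ℝ) < k := by exact_mod_cast hk0
    have h0 : (k : ℝ) ^ rem = Real.exp (rem * Real.log k) := by
      rw [Real.exp_nat_mul, Real.exp_log hkR]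
    rw [h0, ← Real.exp_add]
    refine Real.exp_le_exp.mpr ?_
    have h1 : 16 * (n₁ * Real.log k) ≤ K * (lam * Γ) := by
      rwa [div_le_iff₀ (by positivity)] at hK4
    have hlog : 0 ≤ Real.log k := Real.log_nonneg (by exact_mod_cast (show 1 ≤ k by omega))
    have h2 : (rem : ℝ) * Real.log k ≤ n₁ * Real.log k := mul_le_mul_of_nonneg_right hremR hlog
    have h3 : 3 * Γ * K / 16 ≤ 3 * Γ / (16 * n₁) * n := by
      rw [hnR]
      calc 3 * Γ * K / 16 = 3 * Γ / (16 * n₁) * ((K : ℝ) * n₁) := by field_simp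
        _ ≤ _ := mul_le_mul_of_nonneg_left (by linarith) (by positivity)
    have h4 : lam * (3 * Γ * K / 16) ≤ lam * (3 * Γ / (16 * n₁)) * n := by
      calc lam * (3 * Γ * K / 16) ≤ lam * (3 * Γ / (16 * n₁) * n) :=
            mul_le_mul_of_nonneg_left h3 hlam.le
        _ = _ := by ring
    nlinarith

end

end Pool.Agent.LCSV
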