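import Pool.Agent.Work.MP_bec1e1_lv_helper15.PlantInterface
import Pool.Agent.Work.MP_bec1e1_lv_h99.EXC

/-!
# LU (robust free luck): definitions. See `BLUEPRINT.md`.

Flat lists: `T` cells; a label `p : List Bool`, base contents `xs` (length `l = R * h`), fresh words
`zs` (length `e`), windows `vs`; contents only for the labelled cells: a flat list `cs` of
`R * cnt p` words of length `h`, consumed `R` by `R`.
-/

set_option autoImplicit false
set_option maxHeartbeats 400000

open Filter Topology
open scoped BigOperators

namespace Pool.Agent.LCSV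

open Pool.Agent.LCSE

noncomputable section

/-- number of labels -/
def cnt (p : List Bool) : ℕ := p.count true

section
variable {k : ℕ}

/-- windows (length `h`) of the `R` content cells of a labelled cell inside of its window `v` -/
def cw (h : ℕ) : ℕ → List (Fin k) → List (Option (List (Fin k)))
  | 0, _ => []
  | R + 1, v => (if h ≤ v.length then some (v.take h) else none) :: cw h R (v.drop h)

/-- windows of the content cells of the labelled cells, in order -/
def cws (h R : ℕ) : List Bool → List (List (Fin k)) → List (Option (List (Fin k)))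
  | true :: p, v :: vs => cw h R v ++ cws h R p vs
  | false :: p, _ :: vs => cws h R p vs
  | _, _ => []

/-- the planted word without its tail -/
def core (R : ℕ) : List Bool → List (List (Fin k)) → List (List (Fin k)) →
    List (List (Fin k)) → List (Fin k)
  | true :: p, _ :: xs, z :: zs, cs => (cs.take R).flatten ++ z ++ core R p xs zs (cs.drop R)
  | false :: p, x :: xs, _ :: zs, cs => x ++ core R p xs zs cs
  | _, _, _, _ => []

/-- value of the base contents and the fresh words along the windows `vs`; `m = R * h` -/
def bval (m : ℕ) : List Bool → List (List (Fin k)) → List (List (Fin k)) →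
    List (List (Fin k)) → ℝ
  | true :: p, _ :: xs, z :: zs, v :: vs => (L z (v.drop m) : ℝ) + bval m p xs zs vs
  | false :: p, x :: xs, _ :: zs, v :: vs => (L x v : ℝ) + bval m p xs zs vs
  | _, _, _, _ => 0

/-- value of one content cell -/
def gc : Option (List (Fin k)) → List (Fin k) → ℝ
  | some w, u => (L u w : ℝ)
  | none, _ => 0

/-- value of the content cells -/
def gcs (ws : List (Option (List (Fin k)))) (cs : List (List (Fin k))) : ℝ :=
  (List.zipWith gc ws cs).sum

/-- number of different cells -/
def hd (cs cs' : List (List (Fin k))) : ℕ :=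
  (List.zipWith (fun a b => if a = b then 0 else 1) cs cs').sum

/-- distance to a set of lists of `M` cells of length `h` -/
def dm (h M : ℕ) (A : List (List (Fin k)) → Prop) (cs : List (List (Fin k))) : ℕ :=
  sInf {d : ℕ | ∃ cs', IsCells h M cs' ∧ A cs' ∧ hd cs cs' = d}

/-- product density on words of length `R * h` -/
def gR (h : ℕ) (s : List (Fin k) → ℝ) : ℕ → List (Fin k) → ℝ
  | 0, _ => 1
  | R + 1, w => s (w.take h) * gR h s R (w.drop h)

/-- windows of `K` units of `T` cells and `b` columns -/
def winK (T b : ℕ) (win : List (List (Fin k)) → List (Fin k) → List (List (Fin k))) :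
    ℕ → List (List (Fin k)) → List (Fin k) → List (List (Fin k))
  | 0, _, _ => []
  | K + 1, xs, y => win (xs.take T) (y.take b) ++ winK T b win K (xs.drop T) (y.drop b)

/-- all windows have length `h` -/
def WsOK (h : ℕ) (ws : List (Option (List (Fin k)))) : Prop := ∀ w, some w ∈ ws → w.length = h

end

/-- marginal density of a content cell; `ρ v u`: density of the content `u` given the window `v` -/
def mg (k h : ℕ) (ρ : List (Fin k) → List (Fin k) → ℝ) (u : List (Fin k)) : ℝ :=
  Ex k h fun v => ρ v u

/-- density of a content cell given its window, if there is any -/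
def kd (k h : ℕ) (ρ : List (Fin k) → List (Fin k) → ℝ) :
    Option (List (Fin k)) → List (Fin k) → ℝ
  | some w, u => ρ w u
  | none, u => mg k h ρ u

/-- mean over the content cells, given the windows -/
def Ker (k h : ℕ) (ρ : List (Fin k) → List (Fin k) → ℝ) :
    List (Option (List (Fin k))) → (List (List (Fin k)) → ℝ) → ℝ
  | [], F => F []
  | o :: ws, F => Ex k h fun u => kd k h ρ o u * Ker k h ρ ws fun cs => F (u :: cs)

/-- logarithm of the density of the contents with respect to the product of the marginals -/
def lcs (k h : ℕ) (ρ : List (Fin k) → List (Fin k) → ℝ) (ws : List (Option (List (Fin k))))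
    (cs : List (List (Fin k))) : ℝ :=
  (List.zipWith (fun o u => Real.log (kd k h ρ o u / mg k h ρ u)) ws cs).sum

/-- the kernel: gain `δ` per letter at the cost `z δ` per letter -/
structure IsKer (k h : ℕ) (z δ : ℝ) (ρ : List (Fin k) → List (Fin k) → ℝ) : Prop where
  lb : ∀ v u : List (Fin k), v.length = h → u.length = h → Real.exp (-(z * h)) ≤ ρ v u
  ub : ∀ v u : List (Fin k), v.length = h → u.length = h → ρ v u ≤ Real.exp (z * h)
  one : ∀ v : List (Fin k), v.length = h → Ex k h (ρ v) = 1
  gain : (gam k + δ) * h ≤ Ex k h fun v => Ex k h fun u => ρ v u * (L u v : ℝ)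
  cost : (Ex k h fun v => Ex k h fun u => ρ v u * Real.log (ρ v u / mg k h ρ u)) ≤ z * δ * h

/-- joint mean over labels `p`, base contents `xs`, fresh words `zs`, columns `y`, contents `cs` -/
def Mu (k h R e : ℕ) (θ : ℝ) (ρ : List (Fin k) → List (Fin k) → ℝ) (T b : ℕ)
    (win : List (List (Fin k)) → List (Fin k) → List (List (Fin k)))
    (F : List Bool → List (List (Fin k)) → List (List (Fin k)) → List (Fin k) →
      List (List (Fin k)) → ℝ) : ℝ :=
  EB θ T fun p => Exc k (R * h) (gmin θ (gR h (mg k h ρ) R)) T fun xs => Exs k e T fun zs =>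
    Ex k b fun y => Ker k h ρ (cws h R p (win xs y)) fun cs => F p xs zs y cs

/-- mean value of the contents and the fresh word in the window `v` of a labelled cell -/
def mval (k h R e : ℕ) (ρ : List (Fin k) → List (Fin k) → ℝ) (v : List (Fin k)) : ℝ :=
  Ker k h ρ (cw h R v) (fun cs => gcs (cw h R v) cs) + Ex k e fun z => (L z (v.drop (R * h)) : ℝ)

/-- mean cost of the contents in the window `v` -/
def dval (k h R : ℕ) (ρ : List (Fin k) → List (Fin k) → ℝ) (v : List (Fin k)) : ℝ :=
  Ker k h ρ (cw h R v) (fun cs => lcs k h ρ (cw h R v) cs)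

/-- length of the fresh words -/
def frl (k l : ℕ) : ℕ := ⌊(rho k - 1) * l⌋₊

end

end Pool.Agent.LCSV
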