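import Pool.Agent.Work.MP_bec1e1_LU_h83.Defs

/-!
# LU (robust free luck): the blocks. See `BLUEPRINT.md`.

Block `X` is a theorem `stmt_X (other Props) : Stmt_X`.
-/

set_option autoImplicit false
set_option maxHeartbeats 400000

open Filter Topology
open scoped BigOperators

namespace Pool.Agent.LCSV

open Pool.Agent.LCSE

noncomputable section

/-- **LU_KER** (from `Stmt_Q`): Gibbs kernel of one cell of (Q), then products. -/
def Stmt_LUKER : Prop := ∀ k : ℕ, 2 ≤ k → Rigid k → ∀ z : ℝ, 0 < z → ∃ δ : ℝ, 0 < δ ∧ δ ≤ 1 ∧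
  ∀ h₀ : ℕ, ∃ h : ℕ, h₀ ≤ h ∧ 1 ≤ h ∧ ∃ ρ : List (Fin k) → List (Fin k) → ℝ, IsKer k h z δ ρ

/-- **LU_UNI**: the planted word with a uniform tail is exactly uniform. -/
def Stmt_LUUNI : Prop := ∀ (k h R e T n : ℕ) (θ : ℝ) (s : List (Fin k) → ℝ)
  (f : List (Fin k) → ℝ), 0 < k → θ < 1 → IsDens k h s → T * (R * h + e) ≤ n →
  (EB θ T fun p => Exc k (R * h) (gmin θ (gR h s R)) T fun xs => Exs k e T fun zs =>
    Exc k h s (R * cnt p) fun cs => Ex k (n - (R * h * T + e * cnt p)) fun tl =>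
      f (core R p xs zs cs ++ tl)) = Ex k n f

/-- **LU_COL** (coloured union bound, entropy form). -/
def Stmt_LUCOL : Prop := ∀ (k h R T b : ℕ) (θ : ℝ) (ρ : List (Fin k) → List (Fin k) → ℝ)
  (cut : List (Fin k) → List (List (Fin k))) (φ : List Bool → List (List (Fin k)) → ℝ),
  0 < k → 0 < θ → θ ≤ 1 →
  (∀ v u : List (Fin k), v.length = h → u.length = h → 0 ≤ ρ v u) →
  (∀ v : List (Fin k), v.length = h → Ex k h (ρ v) = 1) →
  (∀ y, y.length = b → (cut y).length = T ∧ (cut y).flatten = y) →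
  (∀ p cs, 0 < φ p cs) →
  (∀ p, p.length = T → Exc k h (mg k h ρ) (R * cnt p) (φ p) ≤ 1) →
  (EB θ T fun p => Ex k b fun y => Ker k h ρ (cws h R p (cut y)) fun cs => Real.log (φ p cs)) ≤
    2 * θ * Real.log ((b + T).choose T)

/-- **LU_DIST**: exponential moment of the distance to a set of probability at least `1 / 4`. -/
def Stmt_LUDIST : Prop := ∀ (k h M : ℕ) (s : List (Fin k) → ℝ) (A : List (List (Fin k)) → Prop)
  (t : ℝ), 0 < k → IsDens k h s → 0 ≤ t → 1 / 4 ≤ Exc k h s M (fun cs => ind (A cs)) →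
  Exc k h s M (fun cs => Real.exp (t * (dm h M A cs : ℝ))) ≤ 4 * Real.exp (t ^ 2 * M / 4)

/-- **LU_BALL**: from a neighbourhood of `A` back to `A`. -/
def Stmt_LUBALL : Prop := ∀ (k h M r : ℕ) (s : List (Fin k) → ℝ) (D β v : ℝ)
  (A : List (List (Fin k)) → Prop) (G : List (List (Fin k)) → ℝ),
  0 < k → IsDens k h s → 0 < D → 0 ≤ β → (∀ u, u.length = h → (k : ℝ) ^ h ≤ D * s u) →
  (∀ cs cs', IsCells h M cs → IsCells h M cs' → G cs ≤ G cs' + h * (hd cs cs' : ℝ)) →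
  (∃ cs, IsCells h M cs ∧ A cs) →
  Exc k h s M (fun cs => ind (dm h M A cs ≤ r ∧ v ≤ G cs)) ≤
    Real.exp (β * r + M * (Real.exp (-β) * D)) *
      Exc k h s M (fun cs => ind (A cs ∧ v - h * r ≤ G cs))

/-- **LU_SHIFT**: change of measure. -/
def Stmt_LUSHIFT : Prop := ∀ (k h : ℕ) (ρ : List (Fin k) → List (Fin k) → ℝ)
  (ws : List (Option (List (Fin k)))) (Q : List (List (Fin k)) → Prop) (c : ℝ), 0 < k →
  (∀ v u : List (Fin k), v.length = h → u.length = h → 0 < ρ v u) → WsOK h ws →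
  Ker k h ρ ws (fun cs => ind (Q cs ∧ lcs k h ρ ws cs ≤ c)) ≤
    Real.exp c * Exc k h (mg k h ρ) ws.length (fun cs => ind (Q cs))

/-- **LU_CELL**: the windows of typical direction are good with large probability. -/
def Stmt_LUCELL : Prop := ∀ k : ℕ, 2 ≤ k → ∀ (z δ : ℝ) (h : ℕ)
  (ρ : List (Fin k) → List (Fin k) → ℝ), 0 < z → 0 < δ → δ ≤ 1 → 1 ≤ h → IsKer k h z δ ρ →
  ∀ ε : ℝ, 0 < ε → ε ≤ 1 → ∃ η : ℝ, 0 < η ∧ ∀ᶠ R : ℕ in atTop, ∀ c : ℕ,
    (Ex k c fun v => ind (((rho k - ε) * (R * h) ≤ v.length ∧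
      (v.length : ℝ) ≤ (rho k + ε) * (R * h)) ∧
      (mval k h R (frl k (R * h)) ρ v <
        (gam k + δ) * (R * h) + gam k * frl k (R * h) - 10 * ε * (R * h) ∨
      (z * δ + ε) * (R * h) < dval k h R ρ v))) ≤ Real.exp (-(η * (R * h)))

/-- **LU_UNIT** (from BASEP, TYPP, CELL): one unit, means. -/
def Stmt_LUUNIT : Prop := ∀ k : ℕ, 2 ≤ k → Rigid k → ∀ (z δ : ℝ) (h : ℕ)
  (ρ : List (Fin k) → List (Fin k) → ℝ), 0 < z → 0 < δ → δ ≤ 1 → 1 ≤ h → IsKer k h z δ ρ →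
  ∀ᶠ R : ℕ in atTop, ∃ (T b : ℕ) (θ : ℝ)
    (win : List (List (Fin k)) → List (Fin k) → List (List (Fin k))),
    1 ≤ T ∧ 0 < θ ∧ θ ≤ 1 / 2 ∧
    (∀ w : List (Fin k), w.length = R * h → θ * gR h (mg k h ρ) R w ≤ 1) ∧
    Flat k ((T * (R * h) : ℕ) : ℝ) b ∧
    (∀ xs y, xs.length = T → OptWin xs y (win xs y)) ∧
    al k * ((T : ℝ) * (R * h) + b) +
        θ * T * (al k * frl k (R * h) + δ * (R * h) / 2) ≤
      Mu k h R (frl k (R * h)) θ ρ T b win (fun p xs zs y cs =>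
        bval (R * h) p xs zs (win xs y) + gcs (cws h R p (win xs y)) cs) ∧
    Mu k h R (frl k (R * h)) θ ρ T b win (fun p xs _ y cs =>
        lcs k h ρ (cws h R p (win xs y)) cs) ≤ 2 * z * δ * (θ * T * (R * h))

/-- **LU_FUB**: the mean over `K + 1` units is an iterated mean. -/
def Stmt_LUFUB : Prop := ∀ (k h R e T b K : ℕ) (θ : ℝ) (ρ : List (Fin k) → List (Fin k) → ℝ)
  (win : List (List (Fin k)) → List (Fin k) → List (List (Fin k)))
  (F : List Bool → List (List (Fin k)) → List (List (Fin k)) → List (Fin k) →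
      List (List (Fin k)) → ℝ),
  (∀ xs y, xs.length = T → OptWin xs y (win xs y)) →
  Mu k h R e θ ρ ((K + 1) * T) ((K + 1) * b) (winK T b win (K + 1)) F =
    Mu k h R e θ ρ T b win (fun p xs zs y cs =>
      Mu k h R e θ ρ (K * T) (K * b) (winK T b win K) (fun p' xs' zs' y' cs' =>
        F (p ++ p') (xs ++ xs') (zs ++ zs') (y ++ y') (cs ++ cs')))

/-- **LU_CHEB** (from FUB): Chebyshev for functions additive over the units. -/
def Stmt_LUCHEB : Prop := ∀ (k h R e T b : ℕ) (θ : ℝ) (ρ : List (Fin k) → List (Fin k) → ℝ)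
  (win : List (List (Fin k)) → List (Fin k) → List (List (Fin k)))
  (f : List Bool → List (List (Fin k)) → List (List (Fin k)) → List (Fin k) →
      List (List (Fin k)) → ℝ)
  (G : ℕ → List Bool → List (List (Fin k)) → List (List (Fin k)) → List (Fin k) →
      List (List (Fin k)) → ℝ) (C : ℝ),
  0 < k → 0 ≤ θ → θ < 1 →
  (∀ v u : List (Fin k), v.length = h → u.length = h → 0 ≤ ρ v u) →
  (∀ v : List (Fin k), v.length = h → Ex k h (ρ v) = 1) →
  (∀ w : List (Fin k), w.length = R * h → θ * gR h (mg k h ρ) R w ≤ 1) →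
  (∀ xs y, xs.length = T → OptWin xs y (win xs y)) →
  (∀ p xs zs y cs, p.length = T → IsCells (R * h) T xs → IsCells e T zs → y.length = b →
    IsCells h (R * cnt p) cs → |f p xs zs y cs| ≤ C) →
  G 0 [] [] [] [] [] = 0 →
  (∀ K p xs zs y cs p' xs' zs' y' cs', p.length = T → IsCells (R * h) T xs → IsCells e T zs →
    y.length = b → IsCells h (R * cnt p) cs → p'.length = K * T → IsCells (R * h) (K * T) xs' →
    IsCells e (K * T) zs' → y'.length = K * b → IsCells h (R * cnt p') cs' →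
    G (K + 1) (p ++ p') (xs ++ xs') (zs ++ zs') (y ++ y') (cs ++ cs') =
      f p xs zs y cs + G K p' xs' zs' y' cs') →
  ∀ (K : ℕ) (t : ℝ), 0 < t →
    Mu k h R e θ ρ (K * T) (K * b) (winK T b win K) (fun p xs zs y cs =>
      ind (t ≤ |G K p xs zs y cs - K * Mu k h R e θ ρ T b win f|)) ≤ K * C ^ 2 / t ^ 2

/-- **LU_TAIL** (from DEF, PHI, MCD): the tail is typical. -/
def Stmt_LUTAIL : Prop := ∀ k : ℕ, 2 ≤ k → ∀ ε : ℝ, 0 < ε → ∀ᶠ n : ℕ in atTop, ∀ a b : ℕ,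
  a ≤ n → b ≤ n →
  (Ex k a fun x => Ex k b fun y => ind ((L x y : ℝ) < Phi k a b - ε * n)) ≤ ε

/-- **LU_DIRT**: direction of the tail. -/
def Stmt_LUDIRT : Prop := ∀ k : ℕ, 2 ≤ k → PhiFacts k → ∀ n a b x : ℝ, 0 ≤ a → 0 ≤ b → 0 ≤ x →
  Flat k a b → x ≤ (rho k - 1) * a → (1 + 2 * rho k) * a ≤ n →
  Phi k (n - a - x) (n - b) = al k * ((n - a - x) + (n - b))

/-- **LU_VAL**: lower bound for the LCS of the planted word. -/
def Stmt_LUVAL : Prop := ∀ (k h R : ℕ) (p : List Bool) (xs zs vs cs : List (List (Fin k)))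
  (tl y : List (Fin k)), xs.length = p.length → zs.length = p.length → vs.length = p.length →
  cs.length = R * cnt p →
  bval (R * h) p xs zs vs + gcs (cws h R p vs) cs + (L tl y : ℝ) ≤
    (L (core R p xs zs cs ++ tl) (vs.flatten ++ y) : ℝ)

/-- LU with probability `1 / 24` instead of `1 - exp (- c n)` -/
def Stmt_LUa : Prop := ∀ k : ℕ, 2 ≤ k → Rigid k → ∀ lam : ℝ, 0 < lam →
  ∃ ζ : ℝ, 0 < ζ ∧ ζ < 1 ∧ ∀ᶠ n : ℕ in atTop, ∀ B : List (Fin k) → Prop,
    1 / 2 ≤ (Ex k n fun u => ind (B u)) →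
    1 / 24 ≤ (Ex k n fun V => ind (Real.exp (-(lam * ζ * n)) ≤
      Ex k n fun u => ind (B u ∧ (gam k + ζ) * n ≤ (L u V : ℝ))))

/-- **LU_VBL** (from BLOW): blow-up in `V`. -/
def Stmt_LUVBL : Prop := Stmt_LUa → Stmt_LU

end

end Pool.Agent.LCSV
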